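import Pool.Agent.N603.DA.Own

set_option autoImplicit false

/-!
All number fields at once, and the height of rational numbers.
-/

open NumberField

namespace Pool.Agent.N603.DA

open Pool.Agent.R437.Met Pool.Agent.R437.Met.Hs Pool.Agent.R349.Gen
open Pool.Agent.N671.DA (Solves Expanding)

/-- there are countably many number fields in `ℂ` -/
theorem countable_fields : Countable {F : IntermediateField ℚ ℂ // FiniteDimensional ℚ F} := by
  classical
  have h0 : Countable {x : ℂ // IsAlgebraic ℚ x} := (Algebraic.countable ℚ ℂ).to_subtype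
  have h1 : (Set.range fun s : Finset {x : ℂ // IsAlgebraic ℚ x} =>
      IntermediateField.adjoin ℚ ((fun x : {x : ℂ // IsAlgebraic ℚ x} => (x : ℂ)) '' (s : Set _))).Countable :=
    Set.countable_range _
  refine Set.Countable.to_subtype (s := {F : IntermediateField ℚ ℂ | FiniteDimensional ℚ F})
    (h1.mono ?_)
  intro F hF
  have hF' : FiniteDimensional ℚ F := hF
  obtain ⟨r, b⟩ : ∃ r : ℕ, Nonempty (Module.Basis (Fin r) ℚ F) := ⟨_, ⟨Module.finBasis ℚ F⟩⟩
  obtain ⟨b⟩ := b
  have hF2 : IntermediateField.adjoin ℚ (Set.range fun i => ((b i : F) : ℂ)) = F := by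
    apply le_antisymm
    · rw [IntermediateField.adjoin_le_iff]
      rintro _ ⟨i, rfl⟩
      exact (b i).2
    · intro x hx
      have h1 := b.sum_repr ⟨x, hx⟩
      have h2 : x = ∑ i, (b.repr ⟨x, hx⟩ i) • ((b i : F) : ℂ) := by
        have h3 := congrArg (algebraMap F ℂ) h1
        rw [map_sum] at h3
        refine h3.symm.trans (Finset.sum_congr rfl fun i _ => ?_)
        rw [Algebra.smul_def, map_mul, ← IsScalarTower.algebraMap_apply ℚ F ℂ, Algebra.smul_def]
        rfl
      rw [h2]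
      exact sum_mem fun i _ => IntermediateField.smul_mem _
        (IntermediateField.subset_adjoin ℚ _ (Set.mem_range_self i))
  have halg : ∀ y : F, IsAlgebraic ℚ (y : ℂ) := fun y =>
    (Algebra.IsAlgebraic.isAlgebraic (R := ℚ) y).algebraMap
  refine ⟨Finset.univ.image fun i => ⟨(b i : ℂ), halg (b i)⟩, ?_⟩
  simp only
  refine Eq.trans ?_ hF2
  congr 1
  ext y
  simp

/-- the height of a rational number between `0` and `1` is its denominator -/
theorem ht_rat (F : Type) [Field F] [NumberField F] (r : ℚ) (h0 : 0 < r) (h1 : r < 1) :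
    ht F (r : F) = r.den := by
  have hden : (0 : ℝ) < r.den := by exact_mod_cast r.pos
  have hdF : ((r.den : ℤ) : F) ≠ 0 := by exact_mod_cast r.den_nz
  have hleast : IsLeast {T : ℝ | IsPt F T (r : F)} (r.den : ℝ) := by
    constructor
    · refine ⟨(r.num : 𝓞 F), ((r.den : ℤ) : 𝓞 F), by exact_mod_cast r.den_nz, fun φ => ?_, ?_⟩
      · have e1 : φ (((r.num : ℤ) : 𝓞 F) : F) = (r.num : ℂ) := by simp
        have e2 : φ ((((r.den : ℕ) : ℤ) : 𝓞 F) : F) = (r.den : ℂ) := by simp
        rw [e1, e2]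
        constructor
        · have h2 : (r.num : ℝ) < r.den := by
            have h3 : (r : ℝ) < 1 := by exact_mod_cast h1
            rw [Rat.cast_def, div_lt_one hden] at h3
            exact h3
          have h4 : (0 : ℝ) < r.num := by
            have : 0 < r.num := Rat.num_pos.2 h0
            exact_mod_cast this
          have h5 : ‖((r.num : ℤ) : ℂ)‖ = |(r.num : ℝ)| := by
            rw [Complex.norm_intCast]
          rw [h5, abs_of_pos h4]
          exact h2.le
        · rw [Complex.norm_natCast]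
      · have e1 : (((r.num : ℤ) : 𝓞 F) : F) = (r.num : F) := by simp
        have e2 : ((((r.den : ℕ) : ℤ) : 𝓞 F) : F) = (r.den : F) := by simp
        rw [e1, e2, Rat.cast_def]
    · rintro T ⟨a, b, hb, hab, hx⟩
      -- the denominator divides `b`
      have hbF : (b : F) ≠ 0 := by exact_mod_cast hb
      have hcross : (r.num : 𝓞 F) * b = a * (r.den : 𝓞 F) := by
        apply RingOfIntegers.ext
        rw [Rat.cast_def] at hx
        have hd : ((r.den : ℕ) : F) ≠ 0 := by exact_mod_cast r.den_nz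
        rw [div_eq_div_iff hd hbF] at hx
        push_cast
        exact hx
      have hcop : IsCoprime (r.num : ℤ) (r.den : ℤ) := by
        rw [Int.isCoprime_iff_nat_coprime]
        simpa using r.reduced
      obtain ⟨s, t, hst⟩ := hcop
      have hb2 : b = (r.den : 𝓞 F) * ((s : 𝓞 F) * a + (t : 𝓞 F) * b) := by
        have h2 : ((s * r.num + t * r.den : ℤ) : 𝓞 F) = 1 := by rw [hst]; simp
        push_cast at h2
        calc b = ((s : 𝓞 F) * r.num + t * r.den) * b := by rw [h2, one_mul]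
          _ = (s : 𝓞 F) * ((r.num : 𝓞 F) * b) + (r.den : 𝓞 F) * (t * b) := by ring
          _ = _ := by rw [hcross]; ring
      set u : 𝓞 F := (s : 𝓞 F) * a + (t : 𝓞 F) * b with hu
      have hu0 : u ≠ 0 := by
        intro h3
        rw [h3, mul_zero] at hb2
        exact hb hb2
      -- some conjugate of `u` is at least one
      have hpt : IsPt F (T / r.den) (0 : F) := by
        refine ⟨0, u, hu0, fun φ => ?_, by simp⟩
        have h4 : ‖φ (b : F)‖ = r.den * ‖φ (u : F)‖ := by
          have h5 : (b : F) = (r.den : F) * (u : F) := by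
            have := congrArg (fun y : 𝓞 F => (y : F)) hb2
            simpa using this
          rw [h5, map_mul, norm_mul, map_natCast, Complex.norm_natCast]
        have h6 : ‖φ (u : F)‖ ≤ T / r.den := by
          rw [le_div_iff₀ hden, mul_comm, ← h4]
          exact (hab φ).2
        refine ⟨?_, h6⟩
        have : φ (((0 : 𝓞 F)) : F) = 0 := by simp
        rw [this, norm_zero]
        exact (norm_nonneg _).trans h6
      have h7 := one_le_pt hpt
      rwa [le_div_iff₀ hden, one_mul] at h7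
  exact hleast.csInf_eq

/-- all number fields in `ℂ` -/
theorem master_all {κ' : Type} [Fintype κ']
    [DecidableEq κ'] (f : κ' → ℂ → ℂ) (S : Set ℂ) (hS : IsOpen S)
    (han : ∀ y, ∀ t ∈ S, AnalyticAt ℂ (f y) t) (hind : ∀ t ∈ S, Pool.Agent.Y124.LocInd f t)
    (c : ℕ → ℂ) {G : ℕ → ℝ} {e : ℝ} (hG : Expanding G e) {κ : ℝ} (hκ : 0 ≤ κ) (hκ1 : κ ≤ 1)
    {m : ℕ} (β : Fin m → ℝ) {τ : ℝ} (hτ : 0 < τ) :
    ∃ E : Set (Fin m → ℝ), dimH E ≤ ENNReal.ofReal ((m + κ) / (1 + τ)) ∧
      ∀ α, α ∉ E → ∀ (F : IntermediateField ℚ ℂ) [NumberField F] (g d : ℕ) (A : ℝ) (L : Set ℂ),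
        IsCompact L → L ⊆ S → ∃ B : ℝ, ∀ C : ℝ,
        ∃ Q : ℕ, ∀ q : ℕ, Q ≤ q → Solves α β q (C * (q : ℝ) ^ (-τ)) →
          ∀ x : Fin 1 → F, (x 0 : ℂ) ∈ L → |ht F (x 0) - G q| ≤ (q : ℝ) ^ κ →
            GoodG F (algebraMap F ℂ) (fun i : Fin g => c i) d (ht F (x 0) ^ A) (ht F (x 0) ^ (-B))
              (fun z : Fin 1 × κ' => f z.2 (x z.1 : ℂ)) := by
  classical
  have hcount := countable_fields
  have key : ∀ F : {F : IntermediateField ℚ ℂ // FiniteDimensional ℚ F},
      ∃ E : Set (Fin m → ℝ), dimH E ≤ ENNReal.ofReal ((m + κ) / (1 + τ)) ∧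
      ∀ α, α ∉ E → ∀ [NumberField F.1] (g d : ℕ) (A : ℝ) (L : Set ℂ),
        IsCompact L → L ⊆ S → ∃ B : ℝ, ∀ C : ℝ,
        ∃ Q : ℕ, ∀ q : ℕ, Q ≤ q → Solves α β q (C * (q : ℝ) ^ (-τ)) →
          ∀ x : Fin 1 → F.1, (x 0 : ℂ) ∈ L → |ht F.1 (x 0) - G q| ≤ (q : ℝ) ^ κ →
            GoodG F.1 (algebraMap F.1 ℂ) (fun i : Fin g => c i) d (ht F.1 (x 0) ^ A)
              (ht F.1 (x 0) ^ (-B)) (fun z : Fin 1 × κ' => f z.2 (x z.1 : ℂ)) := by
    rintro ⟨F, hF⟩
    have : NumberField F := { to_charZero := inferInstance, to_finiteDimensional := hF }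
    obtain ⟨E, hE, h⟩ := master1 F (algebraMap F ℂ) f S hS han hind c hG hκ hκ1 β hτ
    exact ⟨E, hE, fun α hα _ => h α hα⟩
  choose E hE hE2 using key
  refine ⟨⋃ F, E F, ?_, fun α hα F hF => ?_⟩
  · rw [dimH_iUnion]
    exact iSup_le hE
  · have h1 : α ∉ E ⟨F, hF.to_finiteDimensional⟩ := fun h => hα (Set.mem_iUnion.2 ⟨_, h⟩)
    exact hE2 ⟨F, hF.to_finiteDimensional⟩ α h1

end Pool.Agent.N603.DA
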