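import Pool.Agent.N671.DA.Win
import Pool.Agent.R437.Met.GG

set_option autoImplicit false

/-!
Values of locally independent analytic functions at the points of a number field whose height is near
a function of the denominators of good simultaneous approximations.
-/

open NumberField

namespace Pool.Agent.N603.DA

open Pool.Agent.R437.Met Pool.Agent.R437.Met.Hs Pool.Agent.R349.Gen
open Pool.Agent.N671.DA (Solves Expanding approx_good)

/-- count at the own height from the counts at all heights -/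
theorem own_count {X : Type} (hgt : X → ℝ) (h1 : ∀ x, 1 ≤ hgt x) (hfin : ∀ T, {x | hgt x ≤ T}.Finite)
    (Bad : ℝ → X → Prop) (Bad' : X → Prop) {C ε T₀ : ℝ} (hε : 0 < ε)
    (hcount : ∀ T, T₀ ≤ T → ({x | hgt x ≤ T ∧ Bad T x}.ncard : ℝ) ≤ C * T ^ ε)
    (htrans : ∀ x T, T₀ ≤ T → T < 2 * hgt x → hgt x ≤ T → Bad' x → Bad T x) :
    ∃ C' : ℝ, ∀ Y : ℝ, 1 ≤ Y → {x | Bad' x ∧ hgt x ≤ Y}.Finite ∧
      ({x | Bad' x ∧ hgt x ≤ Y}.ncard : ℝ) ≤ C' * Y ^ (2 * ε) := by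
  classical
  set T₁ : ℝ := max T₀ 1 with hT₁
  set N₀ : ℝ := ({x | hgt x ≤ T₁}.ncard : ℝ) with hN₀
  have hl2 : 0 < Real.log 2 := Real.log_pos (by norm_num)
  refine ⟨N₀ + (1 / (ε * Real.log 2) + 2) * (|C| * 2 ^ ε), fun Y hY => ?_⟩
  have hY0 : 0 < Y := by linarith
  refine ⟨(hfin Y).subset fun x hx => hx.2, ?_⟩
  set K : ℕ := ⌈Real.logb 2 Y⌉₊ with hK
  have hlogY : 0 ≤ Real.logb 2 Y := Real.logb_nonneg (by norm_num) hY
  have hKle : (K : ℝ) ≤ Real.logb 2 Y + 1 := (Nat.ceil_lt_add_one hlogY).le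
  have h2K : (2 : ℝ) ^ K ≤ 2 * Y := by
    calc (2 : ℝ) ^ K = (2 : ℝ) ^ (K : ℝ) := (Real.rpow_natCast 2 K).symm
      _ ≤ (2 : ℝ) ^ (Real.logb 2 Y + 1) := Real.rpow_le_rpow_of_exponent_le (by norm_num) hKle
      _ = 2 * Y := by
        rw [Real.rpow_add (by norm_num), Real.rpow_logb (by norm_num) (by norm_num) hY0,
          Real.rpow_one]
        ring
  have hsub : {x | Bad' x ∧ hgt x ≤ Y} ⊆ {x | hgt x ≤ T₁} ∪
      ⋃ k ∈ (Finset.range (K + 1)).filter (fun k : ℕ => T₀ ≤ (2 : ℝ) ^ k),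
        {x | hgt x ≤ (2 : ℝ) ^ k ∧ Bad ((2 : ℝ) ^ k) x} := by
    rintro x ⟨hx1, hx2⟩
    by_cases hx : hgt x ≤ T₁
    · exact Or.inl hx
    · push Not at hx
      right
      have hh0 : 0 < hgt x := by linarith [h1 x]
      have hlh : 0 ≤ Real.logb 2 (hgt x) := Real.logb_nonneg (by norm_num) (h1 x)
      set k : ℕ := ⌈Real.logb 2 (hgt x)⌉₊ with hk
      have hk1 : hgt x ≤ (2 : ℝ) ^ k := by
        calc hgt x = (2 : ℝ) ^ (Real.logb 2 (hgt x)) :=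
              (Real.rpow_logb (by norm_num) (by norm_num) hh0).symm
          _ ≤ (2 : ℝ) ^ (k : ℝ) := Real.rpow_le_rpow_of_exponent_le (by norm_num) (Nat.le_ceil _)
          _ = (2 : ℝ) ^ k := Real.rpow_natCast 2 k
      have hk2 : (2 : ℝ) ^ k < 2 * hgt x := by
        calc (2 : ℝ) ^ k = (2 : ℝ) ^ (k : ℝ) := (Real.rpow_natCast 2 k).symm
          _ < (2 : ℝ) ^ (Real.logb 2 (hgt x) + 1) :=
            Real.rpow_lt_rpow_of_exponent_lt (by norm_num) (Nat.ceil_lt_add_one hlh)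
          _ = 2 * hgt x := by
            rw [Real.rpow_add (by norm_num), Real.rpow_logb (by norm_num) (by norm_num) hh0,
              Real.rpow_one]
            ring
      have hkK : k ≤ K := Nat.ceil_le_ceil (Real.logb_le_logb_of_le (by norm_num) hh0 hx2)
      have hT0k : T₀ ≤ (2 : ℝ) ^ k := by
        have := le_max_left T₀ 1
        linarith
      refine Set.mem_iUnion₂.2 ⟨k, ?_, hk1, htrans x _ hT0k hk2 hk1 hx1⟩
      rw [Finset.mem_filter, Finset.mem_range]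
      exact ⟨by omega, hT0k⟩
  have hfinU : (⋃ k ∈ (Finset.range (K + 1)).filter (fun k : ℕ => T₀ ≤ (2 : ℝ) ^ k),
        {x | hgt x ≤ (2 : ℝ) ^ k ∧ Bad ((2 : ℝ) ^ k) x}).Finite :=
    Set.Finite.biUnion (Finset.finite_toSet _) fun k _ => (hfin _).subset fun x hx => hx.1
  have hterm : ∀ k ∈ (Finset.range (K + 1)).filter (fun k : ℕ => T₀ ≤ (2 : ℝ) ^ k),
      (({x | hgt x ≤ (2 : ℝ) ^ k ∧ Bad ((2 : ℝ) ^ k) x}.ncard : ℕ) : ℝ) ≤ |C| * 2 ^ ε * Y ^ ε := by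
    intro k hk
    rw [Finset.mem_filter, Finset.mem_range] at hk
    refine (hcount _ hk.2).trans ?_
    have hp : (2 : ℝ) ^ k ≤ (2 : ℝ) ^ K := pow_le_pow_right₀ (by norm_num) (by omega)
    calc C * ((2 : ℝ) ^ k) ^ ε ≤ |C| * ((2 : ℝ) ^ k) ^ ε :=
          mul_le_mul_of_nonneg_right (le_abs_self C) (by positivity)
      _ ≤ |C| * (2 * Y) ^ ε := mul_le_mul_of_nonneg_left
          (Real.rpow_le_rpow (by positivity) (hp.trans h2K) hε.le) (abs_nonneg C)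
      _ = |C| * 2 ^ ε * Y ^ ε := by
          rw [Real.mul_rpow (by norm_num) hY0.le]
          ring
  have hYε : (1 : ℝ) ≤ Y ^ ε := Real.one_le_rpow hY hε.le
  have hY2 : Y ^ (2 * ε) = Y ^ ε * Y ^ ε := by
    rw [← Real.rpow_add hY0]
    congr 1
    ring
  have hYY : (1 : ℝ) ≤ Y ^ (2 * ε) := Real.one_le_rpow hY (by positivity)
  have hKY : ((K + 1 : ℕ) : ℝ) ≤ (1 / (ε * Real.log 2) + 2) * Y ^ ε := by
    have e1 : Real.logb 2 Y ≤ 1 / (ε * Real.log 2) * Y ^ ε := by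
      have h3 := Real.log_le_rpow_div hY0.le hε
      rw [Real.logb, div_le_iff₀ hl2]
      calc Real.log Y ≤ Y ^ ε / ε := h3
        _ = 1 / (ε * Real.log 2) * Y ^ ε * Real.log 2 := by field_simp
    push_cast
    nlinarith
  calc (({x | Bad' x ∧ hgt x ≤ Y}.ncard : ℕ) : ℝ)
      ≤ (({x | hgt x ≤ T₁} ∪
        ⋃ k ∈ (Finset.range (K + 1)).filter (fun k : ℕ => T₀ ≤ (2 : ℝ) ^ k),
        {x | hgt x ≤ (2 : ℝ) ^ k ∧ Bad ((2 : ℝ) ^ k) x}).ncard : ℝ) := by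
        exact_mod_cast Set.ncard_le_ncard hsub ((hfin _).union hfinU)
    _ ≤ N₀ + ((⋃ k ∈ (Finset.range (K + 1)).filter (fun k : ℕ => T₀ ≤ (2 : ℝ) ^ k),
        {x | hgt x ≤ (2 : ℝ) ^ k ∧ Bad ((2 : ℝ) ^ k) x}).ncard : ℝ) := by
        rw [hN₀]
        exact_mod_cast Set.ncard_union_le _ _
    _ ≤ N₀ + ((∑ k ∈ (Finset.range (K + 1)).filter (fun k : ℕ => T₀ ≤ (2 : ℝ) ^ k),
        {x | hgt x ≤ (2 : ℝ) ^ k ∧ Bad ((2 : ℝ) ^ k) x}.ncard : ℕ) : ℝ) := by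
        gcongr
        exact Finset.set_ncard_biUnion_le _ _
    _ ≤ N₀ + ((K + 1 : ℕ) : ℝ) * (|C| * 2 ^ ε * Y ^ ε) := by
        gcongr
        push_cast
        refine (Finset.sum_le_sum hterm).trans ?_
        rw [Finset.sum_const, nsmul_eq_mul]
        refine mul_le_mul_of_nonneg_right ?_ (by positivity)
        have := Finset.card_filter_le (Finset.range (K + 1)) (fun k : ℕ => T₀ ≤ (2 : ℝ) ^ k)
        rw [Finset.card_range] at this
        exact_mod_cast this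
    _ ≤ N₀ * Y ^ (2 * ε) + ((1 / (ε * Real.log 2) + 2) * Y ^ ε) * (|C| * 2 ^ ε * Y ^ ε) := by
        refine add_le_add ?_ (mul_le_mul_of_nonneg_right hKY (by positivity))
        have : 0 ≤ N₀ := Nat.cast_nonneg _
        nlinarith
    _ = _ := by
        rw [hY2]
        ring

/-- The height of an element of a number field: the least `T` such that it is a quotient of two integers
all of whose conjugates have absolute value at most `T`. -/
noncomputable def ht (F : Type) [Field F] [NumberField F] (x : F) : ℝ := sInf {T : ℝ | IsPt F T x}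

theorem ht_least (F : Type) [Field F] [NumberField F] (x : F) : IsLeast {T : ℝ | IsPt F T x} (ht F x) := by
  classical
  obtain ⟨φ₀⟩ : Nonempty (F →+* ℂ) := inferInstance
  obtain ⟨a₀, b₀, hb₀, hx⟩ := IsFractionRing.div_surjective (A := 𝓞 F) x
  have hb₀' : b₀ ≠ 0 := nonZeroDivisors.ne_zero hb₀
  set T₀ : ℝ := ∑ φ : F →+* ℂ, (‖φ a₀‖ + ‖φ b₀‖) with hT₀
  have hT₀' : ∀ φ : F →+* ℂ, ‖φ a₀‖ ≤ T₀ ∧ ‖φ b₀‖ ≤ T₀ := by
    intro φ
    have h1 := Finset.single_le_sum (f := fun φ : F →+* ℂ => ‖φ a₀‖ + ‖φ b₀‖)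
      (fun φ _ => by positivity) (Finset.mem_univ φ)
    exact ⟨by linarith [norm_nonneg (φ (b₀ : F))], by linarith [norm_nonneg (φ (a₀ : F))]⟩
  have hint : {a : 𝓞 F | ∀ φ : F →+* ℂ, ‖φ a‖ ≤ T₀}.Finite := by
    have h1 := Embeddings.finite_of_norm_le F ℂ T₀
    refine Set.Finite.of_finite_image (f := fun a : 𝓞 F => (a : F)) (h1.subset ?_) ?_
    · rintro _ ⟨a, ha, rfl⟩
      exact ⟨a.2, fun φ => ha φ⟩
    · intro a _ b _ hab
      exact RingOfIntegers.ext hab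
  set Q : Set (𝓞 F × 𝓞 F) := {p | (p ∈ {a : 𝓞 F | ∀ φ : F →+* ℂ, ‖φ a‖ ≤ T₀} ×ˢ
    {a : 𝓞 F | ∀ φ : F →+* ℂ, ‖φ a‖ ≤ T₀}) ∧ p.2 ≠ 0 ∧ x = (p.1 : F) / p.2} with hQ
  have hQfin : Q.Finite := (hint.prod hint).subset fun p hp => hp.1
  have hQne : Q.Nonempty := ⟨(a₀, b₀), ⟨fun φ => (hT₀' φ).1, fun φ => (hT₀' φ).2⟩, hb₀', hx.symm⟩
  set M : 𝓞 F × 𝓞 F → ℝ := fun p => ⨆ φ : F →+* ℂ, max ‖φ (p.1 : F)‖ ‖φ (p.2 : F)‖ with hM
  have hMle : ∀ p (φ : F →+* ℂ), ‖φ (p.1 : F)‖ ≤ M p ∧ ‖φ (p.2 : F)‖ ≤ M p := by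
    intro p φ
    have h1 : max ‖φ (p.1 : F)‖ ‖φ (p.2 : F)‖ ≤ M p :=
      le_ciSup (f := fun φ : F →+* ℂ => max ‖φ (p.1 : F)‖ ‖φ (p.2 : F)‖)
        (Set.finite_range _).bddAbove φ
    exact ⟨(le_max_left _ _).trans h1, (le_max_right _ _).trans h1⟩
  have hMub : ∀ p (T : ℝ), (∀ φ : F →+* ℂ, ‖φ (p.1 : F)‖ ≤ T ∧ ‖φ (p.2 : F)‖ ≤ T) → M p ≤ T := by
    intro p T h
    have : Nonempty (F →+* ℂ) := ⟨φ₀⟩
    exact ciSup_le fun φ => max_le (h φ).1 (h φ).2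
  obtain ⟨p₀, hp₀, hmin⟩ := Set.exists_min_image Q M hQfin hQne
  have hleast : IsLeast {T : ℝ | IsPt F T x} (M p₀) := by
    refine ⟨⟨p₀.1, p₀.2, hp₀.2.1, fun φ => hMle p₀ φ, hp₀.2.2⟩, ?_⟩
    rintro T ⟨a, b, hb, hab, hxab⟩
    by_cases hT : T ≤ T₀
    · have hmem : ((a, b) : 𝓞 F × 𝓞 F) ∈ Q :=
        ⟨⟨fun φ => (hab φ).1.trans hT, fun φ => (hab φ).2.trans hT⟩, hb, hxab⟩
      exact (hmin _ hmem).trans (hMub (a, b) T hab)
    · push Not at hT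
      have hmem : ((a₀, b₀) : 𝓞 F × 𝓞 F) ∈ Q :=
        ⟨⟨fun φ => (hT₀' φ).1, fun φ => (hT₀' φ).2⟩, hb₀', hx.symm⟩
      exact ((hmin _ hmem).trans (hMub (a₀, b₀) T₀ hT₀')).trans hT.le
  have : ht F x = M p₀ := hleast.csInf_eq
  rw [this]
  exact hleast

theorem one_le_pt {F : Type} [Field F] [NumberField F] {T : ℝ} {x : F} (h : IsPt F T x) : 1 ≤ T := by
  have h1 := pt_height h
  obtain ⟨φ₀⟩ : Nonempty (F →+* ℂ) := inferInstance
  obtain ⟨a, b, hb, hab, hx⟩ := h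
  have h0 : 0 ≤ T := (norm_nonneg _).trans (hab φ₀).1
  have h2 : 1 ≤ T ^ Module.finrank ℚ F := (Height.one_le_mulHeight₁ x).trans h1
  by_contra hcon
  push Not at hcon
  have h3 : T ^ Module.finrank ℚ F < 1 :=
    pow_lt_one₀ h0 hcon (Module.finrank_pos (R := ℚ) (M := F)).ne'
  linarith

theorem one_le_ht (F : Type) [Field F] [NumberField F] (x : F) : 1 ≤ ht F x :=
  one_le_pt (ht_least F x).1

theorem ht_le_iff (F : Type) [Field F] [NumberField F] (x : F) (T : ℝ) : ht F x ≤ T ↔ IsPt F T x :=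
  ⟨fun h => (ht_least F x).1.mono h, fun h => (ht_least F x).2 h⟩

theorem ht_finite (F : Type) [Field F] [NumberField F] (T : ℝ) :
    {x : Fin 1 → F | ht F (x 0) ≤ T}.Finite := by
  refine (Set.Finite.pi' fun _ : Fin 1 => pt_finite F T).subset ?_
  intro x hx j
  rw [Subsingleton.elim j 0]
  exact (ht_le_iff F (x 0) T).1 hx

/-- the exceptional elements at their own height -/
theorem bad_count (F : Type) [Field F] [NumberField F] (ι : F →+* ℂ) {κ' : Type} [Fintype κ']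
    [DecidableEq κ'] (f : κ' → ℂ → ℂ) (c : ℕ → ℂ) (g d : ℕ) (A : ℝ) (hA : 0 ≤ A) (L : Set ℂ)
    (hL : IsCompact L) (han : ∀ y, ∀ t ∈ L, AnalyticAt ℂ (f y) t)
    (hind : ∀ t ∈ L, Pool.Agent.Y124.LocInd f t) (ε : ℝ) (hε : 0 < ε) :
    ∃ B C : ℝ, ∀ Y : ℝ, 1 ≤ Y →
      {x : Fin 1 → F | (ι (x 0) ∈ L ∧ ¬ GoodG F ι (fun i : Fin g => c i) d (ht F (x 0) ^ A)
        (ht F (x 0) ^ (-B)) (fun z : Fin 1 × κ' => f z.2 (ι (x z.1)))) ∧ ht F (x 0) ≤ Y}.Finite ∧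
      (({x : Fin 1 → F | (ι (x 0) ∈ L ∧ ¬ GoodG F ι (fun i : Fin g => c i) d (ht F (x 0) ^ A)
        (ht F (x 0) ^ (-B)) (fun z : Fin 1 × κ' => f z.2 (ι (x z.1)))) ∧
          ht F (x 0) ≤ Y}.ncard : ℕ) : ℝ) ≤ C * Y ^ ε := by
  have hδ : 0 < ε / 4 := by positivity
  obtain ⟨B, C, T₀, H⟩ := shortG (Module.finrank ℚ F) 1 g d (fun _ : Fin 1 => f) L hL
    (fun _ y t ht => han y t ht) (fun _ t ht => hind t ht) A (ε / 4) hδ
  obtain ⟨C', hC'⟩ := GG.total F ι 1 L hL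
    (fun T x => ¬ GoodG F ι (fun i : Fin g => c i) d (T ^ A) (T ^ (-B))
      (fun z : Fin 1 × κ' => f z.2 (ι (x z.1)))) (ε / 4) hδ C T₀
    (fun T hT X hX hX' => (H F le_rfl ι (fun i : Fin g => c i) T hT X hX hX').1)
  set B' : ℝ := max B 0 with hB'
  have hB'0 : 0 ≤ B' := le_max_right _ _
  obtain ⟨C₂, h2⟩ := own_count (X := Fin 1 → F) (fun x => ht F (x 0)) (fun x => one_le_ht F (x 0))
    (ht_finite F)
    (fun T x => ι (x 0) ∈ L ∧ ¬ GoodG F ι (fun i : Fin g => c i) d (T ^ A) (T ^ (-B'))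
      (fun z : Fin 1 × κ' => f z.2 (ι (x z.1))))
    (fun x => ι (x 0) ∈ L ∧ ¬ GoodG F ι (fun i : Fin g => c i) d (ht F (x 0) ^ A)
        (ht F (x 0) ^ (-(B' + 1))) (fun z : Fin 1 × κ' => f z.2 (ι (x z.1))))
    (C := C') (ε := ε / 2) (T₀ := max (max T₀ 1) ((2 : ℝ) ^ (B' + 1))) (by positivity)
    (fun T hT => by
      have hT1 : max T₀ 1 ≤ T := (le_max_left _ _).trans hT
      have hT2 : 1 ≤ T := (le_max_right _ _).trans hT1
      obtain ⟨h3, h4⟩ := hC' T hT1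
      have e : 2 * ((1 : ℕ) : ℝ) * (ε / 4) = ε / 2 := by push_cast; ring
      rw [e, Nat.sub_self, pow_zero, mul_one] at h4
      refine le_trans ?_ h4
      have hsub : {x : Fin 1 → F | ht F (x 0) ≤ T ∧ ι (x 0) ∈ L ∧
          ¬ GoodG F ι (fun i : Fin g => c i) d (T ^ A) (T ^ (-B'))
          (fun z : Fin 1 × κ' => f z.2 (ι (x z.1)))} ⊆
          {x : Fin 1 → F | (∀ j, ι (x j) ∈ L ∧ IsPt F T (x j)) ∧
          ¬ GoodG F ι (fun i : Fin g => c i) d (T ^ A) (T ^ (-B))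
          (fun z : Fin 1 × κ' => f z.2 (ι (x z.1)))} := by
        rintro x ⟨e1, e2, e3⟩
        refine ⟨fun j => ?_, fun hgood => e3 (GG.good_mono le_rfl ?_ hgood)⟩
        · rw [Subsingleton.elim j 0]
          exact ⟨e2, (ht_le_iff F (x 0) T).1 e1⟩
        · exact Fam.pow_mono (neg_le_neg (le_max_left B 0)) hT2
      exact_mod_cast Set.ncard_le_ncard hsub h3)
    (fun x T hT hT2 hT3 hx => by
      refine ⟨hx.1, fun hgood => hx.2 (GG.good_mono ?_ ?_ hgood)⟩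
      · exact Real.rpow_le_rpow (by linarith [one_le_ht F (x 0)]) hT3 hA
      · refine Fam.pow_dyadic hB'0 (one_le_ht F (x 0)) hT3 hT2.le ?_
        have h5 : (2 : ℝ) ^ (B' + 1) ≤ T := (le_max_right _ _).trans hT
        rw [Real.rpow_add (by norm_num), Real.rpow_one] at h5
        linarith)
  refine ⟨B' + 1, C₂, fun Y hY => ?_⟩
  have h3 := h2 Y hY
  have e : 2 * (ε / 2) = ε := by ring
  rw [e] at h3
  exact h3

/-- **Values at the elements whose height is near a function of the denominators of good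
approximations.** -/
theorem master1 (F : Type) [Field F] [NumberField F] (ι : F →+* ℂ) {κ' : Type} [Fintype κ']
    [DecidableEq κ'] (f : κ' → ℂ → ℂ) (S : Set ℂ) (hS : IsOpen S)
    (han : ∀ y, ∀ t ∈ S, AnalyticAt ℂ (f y) t) (hind : ∀ t ∈ S, Pool.Agent.Y124.LocInd f t)
    (c : ℕ → ℂ) {G : ℕ → ℝ} {e : ℝ} (hG : Expanding G e) {κ : ℝ} (hκ : 0 ≤ κ) (hκ1 : κ ≤ 1)
    {m : ℕ} (β : Fin m → ℝ) {τ : ℝ} (hτ : 0 < τ) :
    ∃ E : Set (Fin m → ℝ), dimH E ≤ ENNReal.ofReal ((m + κ) / (1 + τ)) ∧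
      ∀ α, α ∉ E → ∀ (g d : ℕ) (A : ℝ) (L : Set ℂ), IsCompact L → L ⊆ S → ∃ B : ℝ, ∀ C : ℝ,
        ∃ Q : ℕ, ∀ q : ℕ, Q ≤ q → Solves α β q (C * (q : ℝ) ^ (-τ)) →
          ∀ x : Fin 1 → F, ι (x 0) ∈ L → |ht F (x 0) - G q| ≤ (q : ℝ) ^ κ →
            GoodG F ι (fun i : Fin g => c i) d (ht F (x 0) ^ A) (ht F (x 0) ^ (-B))
              (fun z : Fin 1 × κ' => f z.2 (ι (x z.1))) := by
  classical
  have he : 0 ≤ e := by linarith [hG.one_le]
  -- exhaustion of `S` by compact sets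
  have : LocallyCompactSpace S := hS.locallyCompactSpace
  set K := CompactExhaustion.choice S with hK
  have hKc : ∀ n, IsCompact ((fun x : S => (x : ℂ)) '' K n) := fun n =>
    (K.isCompact n).image continuous_subtype_val
  have hKS : ∀ n, ((fun x : S => (x : ℂ)) '' K n) ⊆ S := by
    rintro n _ ⟨x, _, rfl⟩
    exact x.2
  have key : ∀ p : ℕ × ℕ × ℕ × ℕ, ∀ j : ℕ, ∃ (B : ℝ) (E : Set (Fin m → ℝ)),
      dimH E ≤ ENNReal.ofReal ((m + (e * (1 / ((j : ℝ) + 1)) + κ)) / (1 + τ)) ∧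
      ∀ α, α ∉ E → ∀ C : ℝ, ∃ Q : ℕ, ∀ q : ℕ, Q ≤ q → Solves α β q (C * (q : ℝ) ^ (-τ)) →
          ∀ x : Fin 1 → F, ι (x 0) ∈ ((fun x : S => (x : ℂ)) '' K p.2.2.2) →
            |ht F (x 0) - G q| ≤ (q : ℝ) ^ κ →
            GoodG F ι (fun i : Fin p.1 => c i) p.2.1 (ht F (x 0) ^ (p.2.2.1 : ℝ))
              (ht F (x 0) ^ (-B)) (fun z : Fin 1 × κ' => f z.2 (ι (x z.1))) := by
    rintro ⟨g, d, A, n⟩ j
    have hj : (0 : ℝ) < 1 / ((j : ℝ) + 1) := by positivity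
    obtain ⟨B, C, hBC⟩ := bad_count F ι f c g d (A : ℝ) (Nat.cast_nonneg A)
      ((fun x : S => (x : ℂ)) '' K n) (hKc n) (fun y t ht => han y t (hKS n ht))
      (fun t ht => hind t (hKS n ht)) _ hj
    obtain ⟨E, hE, hE2⟩ := approx_good (T := Fin 1 → F)
      (fun x => ι (x 0) ∈ ((fun x : S => (x : ℂ)) '' K n))
      (fun x => GoodG F ι (fun i : Fin g => c i) d (ht F (x 0) ^ (A : ℝ))
        (ht F (x 0) ^ (-B)) (fun z : Fin 1 × κ' => f z.2 (ι (x z.1))))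
      (fun x => ht F (x 0)) hG (s := 1 / ((j : ℝ) + 1)) (κ := κ) hj.le hκ hκ1 (fun ε hε => by
        refine ⟨|C|, fun X hX => ?_⟩
        obtain ⟨h1, h2⟩ := hBC X hX
        refine ⟨h1, h2.trans ?_⟩
        exact mul_le_mul (le_abs_self C) (Real.rpow_le_rpow_of_exponent_le hX (by linarith))
          (by positivity) (abs_nonneg C)) β hτ
    exact ⟨B, E, hE, fun α hα C => hE2 α hα C⟩
  choose B E hE hE2 using key
  refine ⟨⋃ p, ⋂ j, E p j, ?_, ?_⟩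
  · rw [dimH_iUnion]
    refine iSup_le fun p => ?_
    refine ENNReal.le_of_forall_pos_le_add fun δ hδ _ => ?_
    obtain ⟨j, hj⟩ := exists_nat_gt (e / δ)
    have hδ' : (0 : ℝ) < δ := hδ
    have h1 : dimH (⋂ j, E p j) ≤ dimH (E p j) := dimH_mono (Set.iInter_subset _ j)
    refine (h1.trans (hE p j)).trans ?_
    have h2 : e * (1 / ((j : ℝ) + 1)) ≤ δ := by
      rw [div_lt_iff₀ hδ'] at hj
      rw [mul_one_div, div_le_iff₀ (by positivity)]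
      nlinarith
    have h3 : (m + (e * (1 / ((j : ℝ) + 1)) + κ)) / (1 + τ) ≤ (m + κ) / (1 + τ) + δ := by
      have h4 : (m + (e * (1 / ((j : ℝ) + 1)) + κ)) / (1 + τ) =
          (m + κ) / (1 + τ) + (e * (1 / ((j : ℝ) + 1))) / (1 + τ) := by ring
      rw [h4]
      have h5 : (e * (1 / ((j : ℝ) + 1))) / (1 + τ) ≤ δ := by
        rw [div_le_iff₀ (by positivity)]
        nlinarith
      linarith
    refine (ENNReal.ofReal_le_ofReal h3).trans ?_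
    rw [ENNReal.ofReal_add (by positivity) hδ'.le]
    refine add_le_add le_rfl (le_of_eq ?_)
    simp
  · intro α hα g d A L hL hLS
    -- the index of the compact set
    have hL' : IsCompact ((fun x : S => (x : ℂ)) ⁻¹' L) := by
      rw [Subtype.isCompact_iff, Subtype.image_preimage_coe]
      rwa [Set.inter_eq_right.2 hLS]
    obtain ⟨n, hn⟩ := K.exists_superset_of_isCompact hL'
    have hLn : L ⊆ (fun x : S => (x : ℂ)) '' K n := by
      intro t ht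
      exact ⟨⟨t, hLS ht⟩, hn (show t ∈ L from ht), rfl⟩
    set p : ℕ × ℕ × ℕ × ℕ := (g, d, ⌈A⌉₊, n) with hp
    have h1 : ∃ j, α ∉ E p j := by
      by_contra hcon
      push Not at hcon
      exact hα (Set.mem_iUnion.2 ⟨p, Set.mem_iInter.2 hcon⟩)
    obtain ⟨j, hj⟩ := h1
    refine ⟨B p j, fun C => ?_⟩
    obtain ⟨Q, hQ⟩ := hE2 p j α hj C
    refine ⟨Q, fun q hq hs x hx hG' => ?_⟩
    have h2 := hQ q hq hs x (hLn hx) hG'
    exact GG.good_mono (Real.rpow_le_rpow_of_exponent_le (one_le_ht F (x 0)) (Nat.le_ceil A)) le_rfl h2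

end Pool.Agent.N603.DA
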